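import Mathlib

namespace Pool.Agent.Results.MP_2ddb17_co.Counter

open Finsupp

section defs
variable {V R : Type} [CommRing R] (G : SimpleGraph V) [G.LocallyFinite]

/-- The generalized Laplacian `L x = d(x) x + ∑_{y ∼ x} w(x,y) (x - y)` in `RV`. -/
noncomputable def Lap (w : V → V → R) (d : V → R) (x : V) : V →₀ R :=
  d x • single x 1 + ∑ y ∈ G.neighborFinset x, w x y • (single x 1 - single y 1)

/-- The submodule `L(R V°)`, for the interior vertex set `I`. -/
noncomputable def Rel (I : Set V) (w : V → V → R) (d : V → R) : Submodule R (V →₀ R) :=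
  Submodule.span R (Lap G w d '' I)

/-- The fundamental module `Υ = RV / L(RV°)`. -/
abbrev Ups (I : Set V) (w : V → V → R) (d : V → R) : Type := (V →₀ R) ⧸ Rel G I w d

/-- `w` is a symmetric edge weight with unit values on edges. -/
def IsNet (w : V → V → R) : Prop := (∀ x y, w x y = w y x) ∧ ∀ x y, G.Adj x y → IsUnit (w x y)

lemma Lap_apply (w : V → V → R) (d : V → R) (x z : V) (h : z ≠ x) :
    (G.Adj x z → Lap G w d x z = -w x z) ∧ (¬ G.Adj x z → Lap G w d x z = 0) := by
  classical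
  have e : Lap G w d x z = ∑ y ∈ G.neighborFinset x, if y = z then -w x y else 0 := by
    simp only [Lap, Finsupp.add_apply, Finsupp.smul_apply, Finsupp.finsetSum_apply,
      Finsupp.sub_apply, single_apply, if_neg h.symm]
    simp
    split_ifs <;> simp
  rw [e, Finset.sum_ite_eq']
  constructor <;> intro h <;> simp [h]
end defs

lemma theta {R F : Type} [CommRing R] [AddCommGroup F] [Module R F] (N : Submodule R F)
    (v : ℕ → F) (φ : ℕ → F →ₗ[R] R) (hN : ∀ m, v m ∈ N)
    (h1 : ∀ m, v m = 0 ∨ IsUnit (φ m (v m))) (h2 : ∀ m k, m < k → φ m (v k) = 0) (M : ℕ) :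
    ∃ θ : F →ₗ[R] F, (∀ x, θ x ∈ N) ∧ ∀ m, θ (v m) = if m < M then v m else 0 := by
  induction M with
  | zero => exact ⟨0, fun _ => N.zero_mem, fun m => by simp⟩
  | succ M ih =>
    obtain ⟨θ, a, b⟩ := ih
    rcases h1 M with h | h
    · refine ⟨θ, a, fun m => ?_⟩
      rw [b]
      by_cases e : m = M
      · subst e; simp [h]
      · simp only [show m < M + 1 ↔ m < M by omega]
    · obtain ⟨u, hu⟩ := h
      refine ⟨θ + ((φ M).comp (LinearMap.id - θ)).smulRight ((↑u⁻¹ : R) • v M),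
        fun x => N.add_mem (a x) (N.smul_mem _ (N.smul_mem _ (hN M))), fun m => ?_⟩
      simp only [LinearMap.add_apply, LinearMap.smulRight_apply, LinearMap.comp_apply,
        LinearMap.sub_apply, LinearMap.id_apply, b]
      rcases lt_trichotomy m M with hm | rfl | hm
      · simp [hm, show m < M + 1 by omega]
      · simp [← hu, smul_smul]
      · simp [h2 M m hm, show ¬ m < M by omega, show ¬ m < M + 1 by omega]

lemma flat_of {R F : Type} [CommRing R] [AddCommGroup F] [Module R F] [Module.Flat R F]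
    (N : Submodule R F) (h : ∀ r ∈ N, ∃ θ : F →ₗ[R] F, (∀ x, θ x ∈ N) ∧ θ r = r) :
    Module.Flat R (F ⧸ N) := by
  refine Module.Flat.of_forall_isTrivialRelation fun {l f x} hx => ?_
  choose y hy using fun i => N.mkQ_surjective (x i)
  have hr : ∑ i, f i • y i ∈ N := by
    rw [← Submodule.Quotient.mk_eq_zero, ← N.mkQ_apply, map_sum]
    simpa only [map_smul, hy] using hx
  obtain ⟨θ, a, b⟩ := h _ hr
  have h0 : ∑ i, f i • (y i - θ (y i)) = 0 := by
    simp only [smul_sub, Finset.sum_sub_distrib, ← map_smul, ← map_sum, b, sub_self]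
  obtain ⟨k, c, z, h1, h2⟩ := Module.Flat.isTrivialRelation_of_sum_smul_eq_zero h0
  refine ⟨k, c, fun j => N.mkQ (z j), fun i => ?_, h2⟩
  have := congrArg N.mkQ (h1 i)
  rw [map_sub, hy, N.mkQ_apply, (Submodule.Quotient.mk_eq_zero N).2 (a _), sub_zero,
    map_sum] at this
  simpa only [map_smul] using this

def G : SimpleGraph ℕ where
  Adj a b := (b = a + 1 ∧ a % 4 ≠ 3) ∨ (b = a + 2 ∧ a % 4 = 2) ∨
    (a = b + 1 ∧ b % 4 ≠ 3) ∨ (a = b + 2 ∧ b % 4 = 2)
  symm := ⟨fun a b h => by omega⟩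
  loopless := ⟨fun a h => by omega⟩

lemma adj (a b : ℕ) : G.Adj a b ↔ (b = a + 1 ∧ a % 4 ≠ 3) ∨ (b = a + 2 ∧ a % 4 = 2) ∨
    (a = b + 1 ∧ b % 4 ≠ 3) ∨ (a = b + 2 ∧ b % 4 = 2) := Iff.rfl

noncomputable instance : G.LocallyFinite := fun a =>
  ((Set.finite_Iic (a + 2)).subset fun b hb => by
    have := (adj a b).1 hb
    show b ≤ a + 2
    omega).fintype

def I : Set ℕ := {a | a % 4 ≠ 0}

lemma flat (R : Type) [CommRing R] (w : ℕ → ℕ → R) (d : ℕ → R) (hw : IsNet G w) :
    Module.Flat R (Ups G I w d) := by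
  classical
  apply flat_of
  let v : ℕ → ℕ →₀ R := fun m => if m % 4 ≠ 0 then Lap G w d m else 0
  have T := theta (Rel G I w d) v (fun m => if m % 4 ≠ 0 then lapply (m - 1) else 0) (fun m => by
    simp only [v]
    split_ifs with h
    · exact Submodule.subset_span ⟨m, h, rfl⟩
    · exact Submodule.zero_mem _) (fun m => by
    simp only [v]
    split_ifs with h
    · right
      have ha : G.Adj m (m - 1) := by rw [adj]; omega
      rw [lapply_apply, (Lap_apply G w d m (m - 1) (by omega)).1 ha]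
      exact (hw.2 _ _ ha).neg
    · exact Or.inl rfl) (fun m k hk => by
    simp only [v]
    split_ifs with h0 h
    · exact (Lap_apply G w d k (m - 1) (by omega)).2 (by rw [adj]; omega)
    · rfl
    · rfl
    · rfl)
  intro r hr
  have key : ∃ M, ∀ θ : (ℕ →₀ R) →ₗ[R] (ℕ →₀ R), (∀ m < M, θ (v m) = v m) → θ r = r := by
    induction hr using Submodule.span_induction with
    | mem x hx =>
      obtain ⟨m, hm, rfl⟩ := hx
      refine ⟨m + 1, fun θ h => ?_⟩
      have := h m (by omega)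
      simp only [v, if_pos (show m % 4 ≠ 0 from hm)] at this
      exact this
    | zero => exact ⟨0, fun θ _ => map_zero θ⟩
    | add x y _ _ hx hy =>
      obtain ⟨M, hM⟩ := hx
      obtain ⟨N, hN⟩ := hy
      exact ⟨M + N, fun θ h => by
        rw [map_add, hM θ fun m hm => h m (by omega), hN θ fun m hm => h m (by omega)]⟩
    | smul c x _ hx =>
      obtain ⟨M, hM⟩ := hx
      exact ⟨M, fun θ h => by rw [map_smul, hM θ h]⟩
  obtain ⟨M, hM⟩ := key
  obtain ⟨θ, a, b⟩ := T M
  exact ⟨θ, a, hM θ fun m hm => by rw [b, if_pos hm]⟩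

def dd (a : ℕ) : ℤ := if a % 4 = 1 then 0 else -3

lemma L1 (n : ℕ) : Lap G (fun _ _ => (1 : ℤ)) dd (4 * n + 1) =
    (2 : ℤ) • single (4 * n + 1) 1 - single (4 * n) 1 - single (4 * n + 2) 1 := by
  have : G.neighborFinset (4 * n + 1) = {4 * n, 4 * n + 2} := by
    ext b; simp [adj]; omega
  rw [Lap, this, Finset.sum_pair (by omega), dd, if_pos (by omega)]
  module

lemma L2 (n : ℕ) : Lap G (fun _ _ => (1 : ℤ)) dd (4 * n + 2) =
    - single (4 * n + 1) 1 - single (4 * n + 3) 1 - single (4 * (n + 1)) 1 := by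
  have : G.neighborFinset (4 * n + 2) = {4 * n + 1, 4 * n + 3, 4 * (n + 1)} := by
    ext b; simp [adj]; omega
  rw [Lap, this, Finset.sum_insert (by simp; omega), Finset.sum_pair (by omega), dd,
    if_neg (by omega)]
  module

lemma L3 (n : ℕ) : Lap G (fun _ _ => (1 : ℤ)) dd (4 * n + 3) =
    (-2 : ℤ) • single (4 * n + 3) 1 - single (4 * n + 2) 1 := by
  have : G.neighborFinset (4 * n + 3) = {4 * n + 2} := by
    ext b; simp [adj]; omega
  rw [Lap, this, Finset.sum_singleton, dd, if_neg (by omega)]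
  module

noncomputable def u (a : ℕ) : ℚ :=
  if a % 4 = 0 then (-1 / 2) ^ (a / 4) else if a % 4 = 1 then -(-1 / 2) ^ (a / 4 + 1) else 0

lemma notFree : ¬ Module.Free ℤ (Ups G I (fun _ _ => (1 : ℤ)) dd) := by
  intro hf
  set N := Rel G I (fun _ _ => (1 : ℤ)) dd
  have mem : ∀ a, a % 4 ≠ 0 → N.mkQ (Lap G (fun _ _ => (1 : ℤ)) dd a) = 0 := fun a h =>
    (Submodule.Quotient.mk_eq_zero N).2 (Submodule.subset_span ⟨a, h, rfl⟩)
  have step : ∀ n, N.mkQ (single (4 * n) 1) = (-2 : ℤ) • N.mkQ (single (4 * (n + 1)) 1) := by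
    intro n
    have h1 := mem (4 * n + 1) (by omega)
    have h2 := mem (4 * n + 2) (by omega)
    have h3 := mem (4 * n + 3) (by omega)
    rw [L1] at h1
    rw [L2] at h2
    rw [L3] at h3
    simp only [map_sub, map_smul, map_neg] at h1 h2 h3
    linear_combination (norm := module) (-1 : ℤ) • h1 + (-2 : ℤ) • h2 + h3
  have dv : ∀ n, N.mkQ (single 0 1) = (-2 : ℤ) ^ n • N.mkQ (single (4 * n) 1) := by
    intro n
    induction n with
    | zero => simp
    | succ n ih => rw [ih, step, smul_smul, pow_succ]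
  have z : N.mkQ (single 0 1) = 0 := by
    let b := Module.Free.chooseBasis ℤ (Ups G I (fun _ _ => (1 : ℤ)) dd)
    apply b.repr.injective
    ext i
    rw [map_zero, Finsupp.zero_apply]
    set c := b.repr (N.mkQ (single 0 1)) i with hc
    have h1 : (-2 : ℤ) ^ c.natAbs ∣ c := by
      conv_rhs => rw [hc, dv c.natAbs, map_smul]
      exact Dvd.intro _ rfl
    have h2 := Int.natAbs_dvd_natAbs.2 h1
    rw [Int.natAbs_pow] at h2
    have h3 : c.natAbs < 2 ^ c.natAbs := Nat.lt_two_pow_self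
    have := Nat.eq_zero_of_dvd_of_lt h2 h3
    omega
  have hk : N ≤ LinearMap.ker (linearCombination ℤ u) := by
    refine Submodule.span_le.2 ?_
    rintro _ ⟨a, ha, rfl⟩
    have ha' : a % 4 ≠ 0 := ha
    obtain ⟨n, h⟩ : ∃ n, a = 4 * n + 1 ∨ a = 4 * n + 2 ∨ a = 4 * n + 3 := ⟨a / 4, by omega⟩
    have e0 : ∀ n, u (4 * n) = (-1 / 2) ^ n := fun n => by simp [u]
    have e1 : u (4 * n + 1) = -(-1 / 2) ^ (n + 1) := by
      rw [u, if_neg (by omega), if_pos (by omega), show (4 * n + 1) / 4 = n by omega]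
    have e2 : u (4 * n + 2) = 0 := by rw [u, if_neg (by omega), if_neg (by omega)]
    have e3 : u (4 * n + 3) = 0 := by rw [u, if_neg (by omega), if_neg (by omega)]
    rw [SetLike.mem_coe, LinearMap.mem_ker]
    rcases h with rfl | rfl | rfl
    · rw [L1]; simp [e0, e1, e2]; ring
    · rw [L2]; simp [e0, e1, e3]
    · rw [L3]; simp [e2, e3]
  have := hk ((Submodule.Quotient.mk_eq_zero N).1 z)
  simp [u] at this

theorem result : ∃ (V : Type) (_ : Countable V) (_ : Infinite V) (G : SimpleGraph V)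
    (_ : G.LocallyFinite) (I : Set V),
    (∀ (R : Type) [CommRing R] (w : V → V → R) (d : V → R), IsNet G w →
      Module.Flat R (Ups G I w d)) ∧
    ∃ (w : V → V → ℤ) (d : V → ℤ), IsNet G w ∧ ¬ Module.Free ℤ (Ups G I w d) :=
  ⟨ℕ, inferInstance, inferInstance, G, inferInstance, I, flat, fun _ _ => 1, dd,
    ⟨fun _ _ => rfl, fun _ _ _ => isUnit_one⟩, notFree⟩

end Pool.Agent.Results.MP_2ddb17_co.Counter
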